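import Pool.Agent.H28.L.R_pool_sql_team_seeded_9f66d723.W5h66.CX.A

/-!
# The roots outside the unit circle
-/

set_option autoImplicit false

namespace Pool.Agent.W5h66.CX

open Matrix Polynomial Filter Topology

noncomputable section

variable {ι : Type} [Fintype ι] [DecidableEq ι]

/-- the determinant of a linear pencil -/
def pnc {R : Type} [CommRing R] (A B : Matrix ι ι R) : R[X] :=
  det ((X : R[X]) • A.map C + B.map C)

theorem pnc_eval {R : Type} [CommRing R] (A B : Matrix ι ι R) (t : R) :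
    (pnc A B).eval t = (t • A + B).det := by
  unfold pnc
  rw [← Polynomial.coe_evalRingHom, RingHom.map_det]
  congr 1
  ext i j
  simp
  exact mul_comm _ _

theorem pnc_map {R S : Type} [CommRing R] [CommRing S] (φ : R →+* S) (A B : Matrix ι ι R) :
    (pnc A B).map φ = pnc (A.map φ) (B.map φ) := by
  unfold pnc
  rw [← Polynomial.coe_mapRingHom, RingHom.map_det]
  congr 1
  ext i j
  simp

theorem pnc_coeff {R : Type} [CommRing R] (A B : Matrix ι ι R) :
    (pnc A B).coeff (Fintype.card ι) = A.det := coeff_det_X_add_C_card A B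

theorem pnc_natDegree {R : Type} [CommRing R] (A B : Matrix ι ι R) (h : A.det ≠ 0) :
    (pnc A B).natDegree = Fintype.card ι := by
  refine le_antisymm (natDegree_det_X_add_C_le A B) (le_natDegree_of_ne_zero ?_)
  rw [pnc_coeff]
  exact h

theorem pnc_lead {R : Type} [CommRing R] (A B : Matrix ι ι R) (h : A.det ≠ 0) :
    (pnc A B).leadingCoeff = A.det := by
  rw [leadingCoeff, pnc_natDegree A B h, pnc_coeff]

theorem pnc_ne {R : Type} [CommRing R] (A B : Matrix ι ι R) (h : A.det ≠ 0) : pnc A B ≠ 0 := by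
  intro h0
  apply h
  rw [← pnc_coeff A B, h0, coeff_zero]

/-- at most one negative square -/
def Lor (W : Matrix ι ι ℝ) : Prop :=
  ∃ v : ι → ℝ, ∀ x : ι → ℝ, 0 ≤ x ⬝ᵥ W *ᵥ x + (v ⬝ᵥ x) ^ 2

/-- complexification -/
def cm (W : Matrix ι ι ℝ) : Matrix ι ι ℂ := W.map Complex.ofRealHom

omit [DecidableEq ι] in
theorem re_form (B : Matrix ι ι ℝ) (x : ι → ℂ) : (star x ⬝ᵥ cm B *ᵥ x).re =
    (fun i => (x i).re) ⬝ᵥ B *ᵥ (fun i => (x i).re) +
      (fun i => (x i).im) ⬝ᵥ B *ᵥ (fun i => (x i).im) := by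
  simp only [dotProduct, mulVec, cm, Matrix.map_apply, Pi.star_apply, Finset.mul_sum]
  rw [Complex.re_sum, ← Finset.sum_add_distrib]
  refine Finset.sum_congr rfl fun i _ => ?_
  rw [Complex.re_sum, ← Finset.sum_add_distrib]
  refine Finset.sum_congr rfl fun j _ => ?_
  simp only [Complex.star_def, Complex.mul_re, Complex.mul_im, Complex.conj_re, Complex.conj_im,
    Complex.ofRealHom_eq_coe, Complex.ofReal_re, Complex.ofReal_im]
  ring

omit [DecidableEq ι] in
theorem norm_dot (v : ι → ℝ) (x : ι → ℂ) : ‖(fun i => (v i : ℂ)) ⬝ᵥ x‖ ^ 2 =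
    (v ⬝ᵥ fun i => (x i).re) ^ 2 + (v ⬝ᵥ fun i => (x i).im) ^ 2 := by
  rw [← Complex.normSq_eq_norm_sq, Complex.normSq_apply]
  have h1 : ((fun i => (v i : ℂ)) ⬝ᵥ x).re = v ⬝ᵥ fun i => (x i).re := by
    simp only [dotProduct]
    rw [Complex.re_sum]
    exact Finset.sum_congr rfl fun i _ => by simp
  have h2 : ((fun i => (v i : ℂ)) ⬝ᵥ x).im = v ⬝ᵥ fun i => (x i).im := by
    simp only [dotProduct]
    rw [Complex.im_sum]
    exact Finset.sum_congr rfl fun i _ => by simp
  rw [h1, h2]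
  ring

omit [DecidableEq ι] in
theorem star_form (X : Matrix ι ι ℂ) (u : ι → ℂ) :
    star u ⬝ᵥ Xᴴ *ᵥ u = star (star u ⬝ᵥ X *ᵥ u) := by
  rw [dotProduct_mulVec, ← star_mulVec, ← star_dotProduct_star, star_star, dotProduct_comm]

/-- **At most one root outside the unit circle.** -/
theorem card_pnc (W : Matrix ι ι ℝ) (hW : Lor W) (e : ι → ℝ) (he : ∀ i, 0 ≤ e i)
    (hdet : (W + diagonal e).det ≠ 0) :
    (((pnc (W + diagonal e) (Wᵀ - diagonal e)).map Complex.ofRealHom).roots.filter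
      fun z => 1 < ‖z‖).card ≤ 1 := by
  obtain ⟨v, hv⟩ := hW
  set X := cm (W + diagonal e) with hX
  set Y := cm (Wᵀ - diagonal e) with hY
  have hXd : X.det ≠ 0 := by
    rw [hX, cm, ← RingHom.mapMatrix_apply, ← RingHom.map_det]
    simpa using hdet
  have hXu : IsUnit X.det := isUnit_iff_ne_zero.mpr hXd
  set T : Matrix ι ι ℂ := -(X⁻¹ * Y) with hT
  have hXT : X * T = -Y := by
    rw [hT, Matrix.mul_neg, ← Matrix.mul_assoc, Matrix.mul_nonsing_inv _ hXu, Matrix.one_mul]
  have hpoly : (pnc (W + diagonal e) (Wᵀ - diagonal e)).map Complex.ofRealHom =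
      C X.det * T.charpoly := by
    rw [pnc_map]
    change pnc X Y = _
    refine Polynomial.funext fun z => ?_
    rw [pnc_eval, eval_mul, eval_C, Matrix.eval_charpoly, ← Matrix.det_mul, Matrix.mul_sub, hXT,
      sub_neg_eq_add]
    congr 2
    rw [Matrix.scalar_apply, ← Matrix.smul_one_eq_diagonal, Matrix.mul_smul, Matrix.mul_one]
  rw [hpoly, roots_C_mul _ hXd]
  set B : Matrix ι ι ℂ := X + Y with hB
  have hBr : B = cm (W + Wᵀ) := by
    rw [hB, hX, hY]
    ext i j
    simp [cm]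
  have hBh : B.IsHermitian := by
    rw [hBr]
    ext i j
    simp [cm, add_comm]
  have hY2 : Y = Xᴴ - cm (diagonal fun i => 2 * e i) := by
    rw [hX, hY]
    ext i j
    by_cases hij : i = j
    · subst hij
      simp [cm]
      ring
    · simp [cm, Matrix.diagonal_apply_ne _ hij, Matrix.diagonal_apply_ne _ (Ne.symm hij)]
  refine card_outside T B (fun i => ((Real.sqrt 2 * v i : ℝ) : ℂ)) hBh ?_ ?_ ?_
  · intro x
    set u := x - T *ᵥ x with hu
    have hXux : X *ᵥ u = B *ᵥ x := by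
      rw [hu, mulVec_sub, mulVec_mulVec, hXT, hB, neg_mulVec, add_mulVec, sub_neg_eq_add]
    have hTx : T *ᵥ x = x - u := by rw [hu]; abel
    rw [hTx]
    have e1 : star (x - u) ⬝ᵥ B *ᵥ (x - u) = star x ⬝ᵥ B *ᵥ x - star u ⬝ᵥ B *ᵥ x -
        star x ⬝ᵥ B *ᵥ u + star u ⬝ᵥ B *ᵥ u := by
      rw [star_sub, mulVec_sub, sub_dotProduct, dotProduct_sub, dotProduct_sub]
      ring
    have e2 : star x ⬝ᵥ B *ᵥ u = star (star u ⬝ᵥ B *ᵥ x) := by
      nth_rewrite 1 [← hBh.eq]
      rw [dotProduct_mulVec, ← star_mulVec, ← star_dotProduct_star, star_star, dotProduct_comm]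
    have e3 : star u ⬝ᵥ B *ᵥ u = star u ⬝ᵥ X *ᵥ u + star (star u ⬝ᵥ X *ᵥ u) -
        star u ⬝ᵥ cm (diagonal fun i => 2 * e i) *ᵥ u := by
      rw [hB, hY2, add_mulVec, sub_mulVec, dotProduct_add, dotProduct_sub, star_form]
      ring
    have e4 : 0 ≤ (star u ⬝ᵥ cm (diagonal fun i => 2 * e i) *ᵥ u).re := by
      rw [re_form]
      have h0 : ∀ y : ι → ℝ, 0 ≤ y ⬝ᵥ (diagonal fun i => 2 * e i) *ᵥ y := by
        intro y
        unfold dotProduct
        refine Finset.sum_nonneg fun i _ => ?_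
        rw [mulVec_diagonal]
        nlinarith [he i, mul_self_nonneg (y i), mul_nonneg (he i) (mul_self_nonneg (y i))]
      exact add_nonneg (h0 _) (h0 _)
    rw [e1, e2, e3, ← hXux]
    simp only [Complex.add_re, Complex.sub_re, Complex.star_def, Complex.conj_re]
    linarith
  · intro x
    rw [hBr, re_form, norm_dot]
    have h0 : ∀ y : ι → ℝ, 0 ≤ y ⬝ᵥ (W + Wᵀ) *ᵥ y + ((fun i => Real.sqrt 2 * v i) ⬝ᵥ y) ^ 2 := by
      intro y
      have h1 : y ⬝ᵥ (W + Wᵀ) *ᵥ y = 2 * (y ⬝ᵥ W *ᵥ y) := by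
        rw [add_mulVec, dotProduct_add, mulVec_transpose, dotProduct_comm y (y ᵥ* W),
          ← dotProduct_mulVec]
        ring
      have h2 : (fun i => Real.sqrt 2 * v i) ⬝ᵥ y = Real.sqrt 2 * (v ⬝ᵥ y) := by
        simp only [dotProduct, Finset.mul_sum, mul_assoc]
      rw [h1, h2, mul_pow, Real.sq_sqrt (by norm_num)]
      linarith [hv y]
    have := h0 fun i => (x i).re
    have := h0 fun i => (x i).im
    linarith
  · intro x hx
    have hXux : X *ᵥ (x - T *ᵥ x) = 0 := by
      rw [mulVec_sub, mulVec_mulVec, hXT, neg_mulVec, sub_neg_eq_add, ← add_mulVec, ← hB, hx]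
    have h0 : x - T *ᵥ x = 0 := by
      have h1 : X⁻¹ *ᵥ (X *ᵥ (x - T *ᵥ x)) = x - T *ᵥ x := by
        rw [mulVec_mulVec, Matrix.nonsing_inv_mul _ hXu, one_mulVec]
      rw [← h1, hXux, mulVec_zero]
    exact (sub_eq_zero.mp h0).symm

/-- at most one outside root: the Mahler measure -/
theorem measure_cases (p : ℝ[X]) (hp : p ≠ 0)
    (h : ((p.map Complex.ofRealHom).roots.filter fun z => 1 < ‖z‖).card ≤ 1) :
    ((∀ z : ℂ, 1 < ‖z‖ → (p.map Complex.ofRealHom).eval z ≠ 0) ∧
      (p.map Complex.ofRealHom).mahlerMeasure = |p.leadingCoeff|) ∨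
    ∃ z : ℝ, 1 < |z| ∧ p.eval z = 0 ∧
      (∀ w : ℂ, 1 < ‖w‖ → (p.map Complex.ofRealHom).eval w = 0 → w = z) ∧
      (p.map Complex.ofRealHom).mahlerMeasure = |p.leadingCoeff| * |z| := by
  classical
  set q := p.map Complex.ofRealHom with hq
  have hq0 : q ≠ 0 := (Polynomial.map_ne_zero_iff Complex.ofRealHom.injective).mpr hp
  have hlead : ‖q.leadingCoeff‖ = |p.leadingCoeff| := by
    rw [hq, leadingCoeff_map]
    simp
  have hsplit := Multiset.filter_add_not (fun z : ℂ => 1 < ‖z‖) q.roots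
  have hin : ((q.roots.filter fun z => ¬ 1 < ‖z‖).map fun a => max 1 ‖a‖).prod = 1 := by
    have h1 : (q.roots.filter fun z => ¬ 1 < ‖z‖).map (fun a => max 1 ‖a‖) =
        (q.roots.filter fun z => ¬ 1 < ‖z‖).map fun _ => (1 : ℝ) := by
      refine Multiset.map_congr rfl fun z hz => max_eq_left ?_
      exact not_lt.mp (Multiset.mem_filter.mp hz).2
    rw [h1]
    simp
  have hM : q.mahlerMeasure = |p.leadingCoeff| *
      ((q.roots.filter fun z => 1 < ‖z‖).map fun a => max 1 ‖a‖).prod := by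
    rw [mahlerMeasure_eq_leadingCoeff_mul_prod_roots, hlead]
    congr 1
    conv_lhs => rw [← hsplit]
    rw [Multiset.map_add, Multiset.prod_add, hin, mul_one]
  rcases Nat.le_one_iff_eq_zero_or_eq_one.mp h with h0 | h1
  · left
    rw [Multiset.card_eq_zero] at h0
    refine ⟨fun z hz hz0 => ?_, ?_⟩
    · have : z ∈ q.roots.filter fun z => 1 < ‖z‖ :=
        Multiset.mem_filter.mpr ⟨(mem_roots hq0).mpr hz0, hz⟩
      rw [h0] at this
      exact Multiset.notMem_zero _ this
    · rw [hM, h0]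
      simp
  · right
    obtain ⟨w, hw⟩ := Multiset.card_eq_one.mp h1
    have hwm : w ∈ q.roots.filter fun z => 1 < ‖z‖ := by rw [hw]; exact Multiset.mem_singleton_self w
    obtain ⟨hwr, hwn⟩ := Multiset.mem_filter.mp hwm
    have hw0 : q.eval w = 0 := (mem_roots hq0).mp hwr
    have huniq : ∀ z : ℂ, 1 < ‖z‖ → q.eval z = 0 → z = w := by
      intro z hz hz0
      have : z ∈ q.roots.filter fun z => 1 < ‖z‖ :=
        Multiset.mem_filter.mpr ⟨(mem_roots hq0).mpr hz0, hz⟩
      rw [hw] at this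
      exact Multiset.mem_singleton.mp this
    have hconj : q.eval (star w) = 0 := by
      have h3 : q.eval (star w) = star (q.eval w) := by
        rw [hq, eval_map, eval_map, eval₂_eq_sum_range, eval₂_eq_sum_range, star_sum]
        refine Finset.sum_congr rfl fun i _ => ?_
        simp
      rw [h3, hw0, star_zero]
    have hreal : star w = w := huniq (star w) (by rwa [norm_star]) hconj
    have hwre : w = (w.re : ℂ) := (Complex.conj_eq_iff_re.mp hreal).symm
    have hnorm : ‖w‖ = |w.re| := by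
      conv_lhs => rw [hwre]
      rw [Complex.norm_real, Real.norm_eq_abs]
    refine ⟨w.re, hnorm ▸ hwn, ?_, ?_, ?_⟩
    · have h3 : ((p.eval w.re : ℝ) : ℂ) = 0 := by
        rw [← hw0]
        conv_rhs => rw [hwre, hq, eval_map]
        rw [← Complex.ofRealHom_eq_coe (p.eval w.re), ← Complex.ofRealHom_eq_coe w.re,
          ← eval₂_at_apply]
      exact_mod_cast h3
    · intro z hz hz0
      rw [← hwre]
      exact huniq z hz hz0
    · rw [hM, hw]
      simp only [Multiset.map_singleton, Multiset.prod_singleton]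
      rw [max_eq_right hwn.le, hnorm]

/-- a real polynomial is positive to the right of its roots -/
theorem pos_right (p : ℝ[X]) (hl : 0 < p.leadingCoeff) (a : ℝ)
    (h : ∀ t, a ≤ t → p.eval t ≠ 0) : 0 < p.eval a := by
  by_contra hcon
  push Not at hcon
  rcases Nat.eq_zero_or_pos p.natDegree with h0 | h0
  · rw [eq_C_of_natDegree_eq_zero h0] at hl hcon
    simp at hl hcon
    linarith
  · have ht := tendsto_atTop_of_leadingCoeff_nonneg p (natDegree_pos_iff_degree_pos.mp h0) hl.le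
    obtain ⟨b, hb1, hb2⟩ := ((ht.eventually_gt_atTop 0).and (eventually_ge_atTop a)).exists
    obtain ⟨c, hc, hc0⟩ := intermediate_value_Icc hb2 p.continuous.continuousOn ⟨hcon, hb1.le⟩
    exact h c hc.1 hc0

theorem pos_left (p : ℝ[X]) (hl : 0 < p.leadingCoeff) (a : ℝ)
    (h : ∀ t, t ≤ a → p.eval t ≠ 0) : 0 < (-1) ^ p.natDegree * p.eval a := by
  have hX : (-X : ℝ[X]).natDegree = 1 := by rw [natDegree_neg, natDegree_X]
  have h1 : 0 < (C ((-1 : ℝ) ^ p.natDegree) * p.comp (-X)).eval (-a) := by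
    refine pos_right _ ?_ _ ?_
    · rw [leadingCoeff_mul, leadingCoeff_C, leadingCoeff_comp (by rw [hX]; exact one_ne_zero),
        leadingCoeff_neg, leadingCoeff_X]
      have h2 : ((-1 : ℝ) ^ p.natDegree) * (p.leadingCoeff * (-1) ^ p.natDegree) =
          p.leadingCoeff := by
        rw [mul_comm p.leadingCoeff, ← mul_assoc, ← mul_pow]
        norm_num
      rw [h2]
      exact hl
    · intro t ht
      rw [eval_mul, eval_C, eval_comp, eval_neg, eval_X]
      exact mul_ne_zero (pow_ne_zero _ (by norm_num)) (h _ (by linarith))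
  rw [eval_mul, eval_C, eval_comp, eval_neg, eval_X, neg_neg] at h1
  exact h1

end

end Pool.Agent.W5h66.CX
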