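import Pool.Agent.H28.L.R_pool_sql_team_seeded_9f66d723.W5h66.CX.B

/-!
# There is no root to the left of `-1`
-/

set_option autoImplicit false

namespace Pool.Agent.W5h66.CX

open Matrix Polynomial Filter Topology

noncomputable section

variable {ι : Type} [Fintype ι] [DecidableEq ι]

omit [DecidableEq ι] in
theorem skew_form (K : Matrix ι ι ℝ) (hK : Kᵀ = -K) (x : ι → ℝ) : x ⬝ᵥ K *ᵥ x = 0 := by
  have h1 : x ⬝ᵥ Kᵀ *ᵥ x = x ⬝ᵥ K *ᵥ x := by
    rw [mulVec_transpose, dotProduct_comm x (x ᵥ* K), ← dotProduct_mulVec]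
  rw [hK, neg_mulVec, dotProduct_neg] at h1
  linarith

theorem skew_det_ne (K : Matrix ι ι ℝ) (hK : Kᵀ = -K) (η : ι → ℝ) (hη : ∀ i, 0 < η i) :
    (K + diagonal η).det ≠ 0 := by
  intro h0
  obtain ⟨x, hx, hx0⟩ := Matrix.exists_mulVec_eq_zero_iff.mpr h0
  have h1 : x ⬝ᵥ (K + diagonal η) *ᵥ x = 0 := by rw [hx0, dotProduct_zero]
  rw [add_mulVec, dotProduct_add, skew_form K hK, zero_add] at h1
  have h2 : x ⬝ᵥ (diagonal η) *ᵥ x = ∑ i, η i * x i ^ 2 := by
    unfold dotProduct
    refine Finset.sum_congr rfl fun i _ => ?_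
    rw [mulVec_diagonal]
    ring
  rw [h2] at h1
  apply hx
  ext i
  have h3 := (Finset.sum_eq_zero_iff_of_nonneg fun i _ =>
    mul_nonneg (hη i).le (sq_nonneg (x i))).mp h1 i (Finset.mem_univ i)
  have h4 := (mul_eq_zero.mp h3).resolve_left (hη i).ne'
  exact pow_eq_zero_iff (two_ne_zero) |>.mp h4

theorem skew_det_pos (K : Matrix ι ι ℝ) (hK : Kᵀ = -K) (η : ι → ℝ) (hη : ∀ i, 0 < η i) :
    0 < (K + diagonal η).det := by
  by_contra hcon
  push Not at hcon
  have hcont : Continuous fun τ : ℝ => (τ • K + diagonal η).det := by fun_prop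
  have h0 : 0 ≤ ((0 : ℝ) • K + diagonal η).det := by
    rw [zero_smul, zero_add, det_diagonal]
    exact Finset.prod_nonneg fun i _ => (hη i).le
  have h1 : ((1 : ℝ) • K + diagonal η).det ≤ 0 := by rw [one_smul]; exact hcon
  obtain ⟨τ, _, hτ⟩ := intermediate_value_Icc' (zero_le_one' ℝ) hcont.continuousOn ⟨h1, h0⟩
  refine skew_det_ne (τ • K) ?_ η hη hτ
  rw [transpose_smul, hK, smul_neg]

/-- no root to the left of `-1` -/
theorem no_neg (W : Matrix ι ι ℝ) (hW : Lor W) (δ : ι → ℝ) (hδ : ∀ i, 0 < δ i)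
    (hdet : ∀ s : ℝ, 0 ≤ s → 0 < (W + diagonal fun i => s * δ i).det) (t : ℝ) (ht : t < -1) :
    (pnc W Wᵀ).eval t ≠ 0 := by
  classical
  set n := Fintype.card ι with hn
  set P : ℝ → ℝ[X] := fun s => pnc (W + diagonal fun i => s * δ i) (Wᵀ - diagonal fun i => s * δ i)
    with hP
  have hsgn : ((-1 : ℝ) ^ n) * (-1) ^ n = 1 := by rw [← mul_pow]; norm_num
  have hcases : ∀ s : ℝ, 0 ≤ s → ∀ r₁ r₂ : ℝ, 1 < |r₁| → 1 < |r₂| → (P s).eval r₁ = 0 →
      (P s).eval r₂ = 0 → r₁ = r₂ := by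
    intro s hs r₁ r₂ h1 h2 h3 h4
    have hd := (hdet s hs).ne'
    have hc := card_pnc W hW (fun i => s * δ i) (fun i => mul_nonneg hs (hδ i).le) hd
    have hev : ∀ r : ℝ, (P s).eval r = 0 → ((P s).map Complex.ofRealHom).eval (r : ℂ) = 0 := by
      intro r hr
      rw [eval_map, ← Complex.ofRealHom_eq_coe r, eval₂_at_apply, hr, map_zero]
    have hnr : ∀ r : ℝ, 1 < |r| → 1 < ‖(r : ℂ)‖ := by
      intro r hr
      rwa [Complex.norm_real, Real.norm_eq_abs]
    rcases measure_cases (P s) (pnc_ne _ _ hd) hc with ⟨h5, _⟩ | ⟨z, _, _, h5, _⟩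
    · exact absurd (hev r₁ h3) (h5 _ (hnr _ h1))
    · have h6 := h5 _ (hnr _ h1) (hev _ h3)
      have h7 := h5 _ (hnr _ h2) (hev _ h4)
      have h8 : (r₁ : ℂ) = r₂ := by rw [h6, h7]
      exact_mod_cast h8
  have hat : ∀ s : ℝ, 0 < s → 0 < (-1) ^ n * (P s).eval (-1) := by
    intro s hs
    rw [hP]
    beta_reduce
    rw [pnc_eval]
    have h1 : (-1 : ℝ) • (W + diagonal fun i => s * δ i) + (Wᵀ - diagonal fun i => s * δ i) =
        -((W - Wᵀ) + diagonal fun i => 2 * (s * δ i)) := by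
      ext i j
      by_cases hij : i = j
      · subst hij
        simp
        ring
      · simp [Matrix.diagonal_apply_ne _ hij]
        ring
    rw [h1, Matrix.det_neg, ← mul_assoc, ← hn, hsgn, one_mul]
    refine skew_det_pos _ ?_ _ fun i => by have := hδ i; positivity
    rw [transpose_sub, transpose_transpose, neg_sub]
  have hpos : ∀ s : ℝ, 0 < s → ∀ u : ℝ, u < -1 → 0 ≤ (-1) ^ n * (P s).eval u := by
    intro s hs u hu
    by_contra hcon
    push Not at hcon
    have hd := (hdet s hs.le).ne'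
    obtain ⟨r₁, hr1, hr10⟩ : ∃ r, r ≤ u ∧ (P s).eval r = 0 := by
      by_contra hno
      push Not at hno
      have h1 := pos_left (P s) (by rw [hP, pnc_lead _ _ hd]; exact hdet s hs.le) u hno
      rw [hP, pnc_natDegree _ _ hd, ← hn] at h1
      rw [hP] at hcon
      linarith
    have hcont : ContinuousOn (fun r => (-1) ^ n * (P s).eval r) (Set.Icc u (-1)) :=
      (continuous_const.mul (P s).continuous).continuousOn
    obtain ⟨r₂, hr2, hr20⟩ := intermediate_value_Icc hu.le hcont ⟨hcon.le, (hat s hs).le⟩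
    have hr21 : (P s).eval r₂ = 0 :=
      (mul_eq_zero.mp hr20).resolve_left (pow_ne_zero _ (by norm_num))
    have hr22 : r₂ ≠ -1 := by
      rintro rfl
      exact (hat s hs).ne' hr20
    have hr23 : r₂ < -1 := lt_of_le_of_ne hr2.2 hr22
    have h2 := hcases s hs.le r₁ r₂ (by rw [abs_of_neg (by linarith)]; linarith)
      (by rw [abs_of_neg (by linarith)]; linarith) hr10 hr21
    have h3 : r₁ = u := le_antisymm hr1 (h2 ▸ hr2.1)
    rw [h3] at hr10
    rw [hr10, mul_zero] at hcon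
    exact lt_irrefl _ hcon
  have h0 : P 0 = pnc W Wᵀ := by
    rw [hP]
    simp
  have hlim : ∀ u : ℝ, u < -1 → 0 ≤ (-1) ^ n * (P 0).eval u := by
    intro u hu
    have hcont : Continuous fun s : ℝ => (-1) ^ n * (P s).eval u := by
      simp only [hP, pnc_eval]
      fun_prop
    have h1 : Tendsto (fun s : ℝ => (-1) ^ n * (P s).eval u) (𝓝[>] 0)
        (𝓝 ((-1) ^ n * (P 0).eval u)) := (hcont.tendsto 0).mono_left nhdsWithin_le_nhds
    refine ge_of_tendsto h1 ?_
    filter_upwards [self_mem_nhdsWithin] with s hs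
    exact hpos s hs u hu
  intro hroot
  rw [← h0] at hroot
  have hd0 := (hdet 0 le_rfl).ne'
  have hP0 : P 0 ≠ 0 := pnc_ne _ _ hd0
  have hmin : IsLocalMin (fun u : ℝ => (C ((-1 : ℝ) ^ n) * P 0).eval u) t := by
    filter_upwards [Iio_mem_nhds ht] with u hu
    simp only [eval_mul, eval_C, hroot, mul_zero]
    exact hlim u hu
  have hder := hmin.deriv_eq_zero
  rw [Polynomial.deriv, derivative_C_mul, eval_mul, eval_C] at hder
  have hder0 : (derivative (P 0)).eval t = 0 :=
    (mul_eq_zero.mp hder).resolve_left (pow_ne_zero _ (by norm_num))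
  have hmult : 1 < (P 0).rootMultiplicity t :=
    (one_lt_rootMultiplicity_iff_isRoot hP0).mpr ⟨hroot, hder0⟩
  have hmultC : 1 < ((P 0).map Complex.ofRealHom).rootMultiplicity (Complex.ofRealHom t) := by
    rw [← Polynomial.eq_rootMultiplicity_map Complex.ofRealHom.injective]
    exact hmult
  have hc := card_pnc W hW (fun i => (0 : ℝ) * δ i) (fun i => by simp) hd0
  have h3 : 2 ≤ (((P 0).map Complex.ofRealHom).roots.filter fun z => 1 < ‖z‖).count
      (Complex.ofRealHom t) := by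
    rw [Multiset.count_filter_of_pos, count_roots]
    · exact hmultC
    · rw [Complex.ofRealHom_eq_coe, Complex.norm_real, Real.norm_eq_abs,
        abs_of_neg (by linarith)]
      linarith
  have h4 := (h3.trans (Multiset.count_le_card _ _)).trans hc
  omega

end

end Pool.Agent.W5h66.CX
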