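import Pool.Agent.H28.L.R_pool_sql_team_seeded_9f66d723.W5h66.CX.D

/-!
# The identity on the unit circle
-/

set_option autoImplicit false

namespace Pool.Agent.W5h66.CX

open Matrix Polynomial Filter Topology MeasureTheory
open Pool.Agent.H261R2.CM (toC ez ev1 m1 mx1 D_norm_ez D_log_m1 D_intervalIntegrable_log D_ae_ne)
open Pool.Agent.Y820.LB (Dom Good)

noncomputable section

variable {n : ℕ} {A : Matrix (Fin n) (Fin n) ℤ} {d : Fin n → ℝ}

theorem cox_eval (A : Matrix (Fin n) (Fin n) ℤ) (z : ℂ) : (toC (cox A)).eval z =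
    (z • (up A).map (Int.castRingHom ℂ) + (lo A).map (Int.castRingHom ℂ)).det := by
  unfold toC cox pol
  rw [pnc_map, pnc_eval]
  congr 1
  ext i j
  by_cases hij : i = j
  · subst hij
    simp
  · simp [Matrix.diagonal_apply_ne _ hij]

/-- the pencil is symmetric -/
theorem Dat.det_swap (h : Dat A d) (z : ℂ) :
    ((up A).map (Int.castRingHom ℂ) + z • (lo A).map (Int.castRingHom ℂ)).det =
      (z • (up A).map (Int.castRingHom ℂ) + (lo A).map (Int.castRingHom ℂ)).det := by
  have hU : cm (Wm A d) = diagonal (fun i => (d i : ℂ)) * (up A).map (Int.castRingHom ℂ) := by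
    ext i j
    simp [cm, Wm, Matrix.diagonal_mul]
  have hL : (cm (Wm A d))ᵀ = diagonal (fun i => (d i : ℂ)) * (lo A).map (Int.castRingHom ℂ) := by
    have h1 : (cm (Wm A d))ᵀ = cm ((Wm A d)ᵀ) := by
      unfold cm
      rw [Matrix.transpose_map]
    rw [h1, h.tr]
    ext i j
    simp [cm, Matrix.diagonal_mul]
  have hD : (diagonal fun i => (d i : ℂ)).det ≠ 0 := by
    rw [det_diagonal]
    exact Finset.prod_ne_zero_iff.mpr fun i _ => by exact_mod_cast (h.pos i).ne'
  refine mul_left_cancel₀ hD ?_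
  rw [← Matrix.det_mul, ← Matrix.det_mul, Matrix.mul_add, Matrix.mul_add, Matrix.mul_smul,
    Matrix.mul_smul, ← hU, ← hL, ← Matrix.det_transpose, transpose_add, transpose_smul,
    transpose_transpose, add_comm]

theorem Dat.recip (h : Dat A d) (z : ℂ) (hz : z ≠ 0) :
    (toC (cox A)).eval z⁻¹ = (z⁻¹) ^ n * (toC (cox A)).eval z := by
  rw [cox_eval, cox_eval, ← h.det_swap z]
  have h1 : z⁻¹ • (up A).map (Int.castRingHom ℂ) + (lo A).map (Int.castRingHom ℂ) =
      z⁻¹ • ((up A).map (Int.castRingHom ℂ) + z • (lo A).map (Int.castRingHom ℂ)) := by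
    rw [smul_add, smul_smul, inv_mul_cancel₀ hz, one_smul]
  rw [h1, Matrix.det_smul, Fintype.card_fin]

theorem star_eval (p : ℤ[X]) (z : ℂ) : star ((toC p).eval z) = (toC p).eval (star z) := by
  unfold toC
  rw [eval_map, eval_map, eval₂_eq_sum_range, eval₂_eq_sum_range, star_sum]
  refine Finset.sum_congr rfl fun i _ => ?_
  simp

theorem Dat.star_cox (h : Dat A d) (z : ℂ) (hz : ‖z‖ = 1) :
    star ((toC (cox A)).eval z) = (z⁻¹) ^ n * (toC (cox A)).eval z := by
  have hz0 : z ≠ 0 := by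
    rintro rfl
    rw [norm_zero] at hz
    exact zero_ne_one hz
  have h1 : star z = z⁻¹ := by
    rw [Complex.star_def, Complex.inv_def, Complex.normSq_eq_norm_sq, hz]
    simp
  rw [star_eval, h1, h.recip z hz0]

/-- **The identity.** -/
theorem Dat.circle {A : Matrix (Fin (n + 1)) (Fin (n + 1)) ℤ} {d : Fin (n + 1) → ℝ} (h : Dat A d)
    (i : Fin (n + 1)) (z : ℂ) (hz : ‖z‖ = 1) :
    ‖(toC (cox A + (X - 1) * cox (CX.del A i))).eval z‖ ^ 2 =
      ‖(toC (cox A)).eval z‖ ^ 2 + ‖(toC ((X - 1) * cox (CX.del A i))).eval z‖ ^ 2 := by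
  have hz0 : z ≠ 0 := by
    rintro rfl
    rw [norm_zero] at hz
    exact zero_ne_one hz
  have hs : star z = z⁻¹ := by
    rw [Complex.star_def, Complex.inv_def, Complex.normSq_eq_norm_sq, hz]
    simp
  have ha := h.star_cox z hz
  have hb := (h.del i).star_cox z hz
  set a := (toC (cox A)).eval z with hadef
  set b := (toC (cox (CX.del A i))).eval z with hbdef
  have e1 : (toC ((X - 1) * cox (CX.del A i))).eval z = (z - 1) * b := by
    rw [hbdef]
    unfold toC
    rw [Polynomial.map_mul, eval_mul]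
    simp
  have e2 : (toC (cox A + (X - 1) * cox (CX.del A i))).eval z = a + (z - 1) * b := by
    rw [← e1, hadef]
    unfold toC
    rw [Polynomial.map_add, eval_add]
  rw [e1, e2]
  have key : ∀ w : ℂ, ((‖w‖ ^ 2 : ℝ) : ℂ) = star w * w := by
    intro w
    rw [← Complex.normSq_eq_norm_sq, Complex.normSq_eq_conj_mul_self]
    rfl
  have h3 : ((‖a + (z - 1) * b‖ ^ 2 : ℝ) : ℂ) = ((‖a‖ ^ 2 + ‖(z - 1) * b‖ ^ 2 : ℝ) : ℂ) := by
    rw [Complex.ofReal_add, key, key, key, star_add, star_mul, star_sub, star_one, hs, ha, hb]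
    have h4 : z⁻¹ * z = 1 := inv_mul_cancel₀ hz0
    have h5 : (z⁻¹) ^ (n + 1) = (z⁻¹) ^ n * z⁻¹ := pow_succ _ _
    rw [h5]
    linear_combination (z⁻¹) ^ n * a * b * h4
  exact_mod_cast h3

/-- **The bound for the pair.** -/
theorem Dat.dom {A : Matrix (Fin (n + 1)) (Fin (n + 1)) ℤ} {d : Fin (n + 1) → ℝ} (h : Dat A d)
    (i : Fin (n + 1)) (c : ℝ) (hc : m1 (cox (CX.del A i)) ≤ c * m1 (cox A)) (hc1 : 1 ≤ c) :
    Dom (fun t => ‖ev1 ((X - 1) * cox (CX.del A i)) t / ev1 (cox A) t‖)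
      (2 * Real.log 2 + Real.log c) := by
  set P := cox A + (X - 1) * cox (CX.del A i) with hP
  have hF := Dat.one_le A
  have hP0 : P ≠ 0 := by
    rw [hP, ← pol_single]
    refine pol_ne _ _ fun a => ?_
    by_cases ha : a = i
    · subst ha; simp
    · simp [Pi.single_eq_of_ne ha]
  refine ⟨fun t => Real.log 2 + (Real.log ‖ev1 P t‖ - Real.log ‖ev1 (cox A) t‖), ?_, ?_, ?_⟩
  · exact intervalIntegrable_const.add
      ((D_intervalIntegrable_log P).sub (D_intervalIntegrable_log (cox A)))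
  · filter_upwards [D_ae_ne (cox A) (cox_monic A).ne_zero, D_ae_ne P hP0] with t h1 h2
    refine ⟨norm_nonneg _, ?_⟩
    have h3 := h.circle i (ez t) (D_norm_ez t)
    change ‖ev1 P t‖ ^ 2 = ‖ev1 (cox A) t‖ ^ 2 + ‖ev1 ((X - 1) * cox (CX.del A i)) t‖ ^ 2 at h3
    set p := ‖ev1 P t‖
    set f := ‖ev1 (cox A) t‖ with hf
    set g := ‖ev1 ((X - 1) * cox (CX.del A i)) t‖
    have hf0 : 0 < f := norm_pos_iff.mpr h1
    have hp0 : 0 < p := norm_pos_iff.mpr h2
    have hg0 : 0 ≤ g := norm_nonneg _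
    rw [norm_div]
    change Real.log (1 + g / f) ≤ Real.log 2 + (Real.log p - Real.log f)
    rw [← Real.log_div hp0.ne' hf0.ne', ← Real.log_mul two_ne_zero (div_pos hp0 hf0).ne']
    refine Real.log_le_log (by positivity) ?_
    have h4 : f + g ≤ 2 * p := by
      refine abs_le_of_sq_le_sq' ?_ (by positivity) |>.2
      nlinarith [sq_nonneg (f - g)]
    rw [← mul_div_assoc, le_div_iff₀ hf0, add_mul, div_mul_cancel₀ _ hf0.ne', one_mul]
    exact h4
  · rw [intervalIntegral.integral_add intervalIntegrable_const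
      ((D_intervalIntegrable_log P).sub (D_intervalIntegrable_log (cox A))),
      intervalIntegral.integral_sub (D_intervalIntegrable_log P)
        (D_intervalIntegrable_log (cox A)), ← D_log_m1, ← D_log_m1]
    have h1 : m1 P ≤ 2 * (c * m1 (cox A)) := by
      refine (h.aux i).trans (mul_le_mul_of_nonneg_left ?_ (by norm_num))
      refine max_le ?_ hc
      nlinarith
    have h2 : 0 < m1 P := lt_of_lt_of_le one_pos (Pool.Agent.Y820.LB.one_le_m1 hP0)
    have h3 := Real.log_le_log h2 h1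
    rw [Real.log_mul two_ne_zero (by positivity), Real.log_mul (by positivity) (by positivity)]
      at h3
    simp only [intervalIntegral.integral_const, sub_zero, one_smul]
    linarith

theorem Dat.good {A : Matrix (Fin (n + 1)) (Fin (n + 1)) ℤ} {d : Fin (n + 1) → ℝ} (h : Dat A d)
    (i : Fin (n + 1)) (c : ℝ) (hc : m1 (cox (CX.del A i)) ≤ c * m1 (cox A)) (hc1 : 1 ≤ c)
    (hcop : ∀ z : ℂ, 1 < ‖z‖ → (toC (cox A)).eval z = 0 →
      (toC (cox (CX.del A i))).eval z ≠ 0) :
    Good (2 * Real.log 2 + Real.log c) (cox A) := by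
  refine ⟨cox_monic A, (X - 1) * cox (CX.del A i), _, h.dom i c hc hc1, ?_, ?_⟩
  · filter_upwards [D_ae_ne (cox A) (cox_monic A).ne_zero] with t h1
    rw [mul_div_cancel₀ _ h1]
  · intro z hz h0
    have e1 : (toC ((X - 1) * cox (CX.del A i))).eval z =
        (z - 1) * (toC (cox (CX.del A i))).eval z := by
      unfold toC
      rw [Polynomial.map_mul, eval_mul]
      simp
    rw [e1]
    refine mul_ne_zero ?_ (hcop z hz h0)
    intro h1
    rw [sub_eq_zero.mp h1, norm_one] at hz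
    exact lt_irrefl _ hz

end

end Pool.Agent.W5h66.CX
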