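import Pool.Agent.H28.L.R_pool_sql_team_seeded_9f66d723.W5h66.CX.E

/-!
# Monotonicity of the measure for nonpositive off-diagonal entries
-/

set_option autoImplicit false

namespace Pool.Agent.W5h66.CX

open Matrix Polynomial Filter Topology MeasureTheory
open Pool.Agent.H261R2.CM (toC ez ev1 m1 mx1)

noncomputable section

/-- the minimum principle -/
theorem min_principle {ι : Type} [Fintype ι] (M : Matrix ι ι ℝ) (hM : ∀ i j, i ≠ j → M i j ≤ 0)
    (y : ι → ℝ) (hy : ∀ i, 0 < y i) (hMy : ∀ i, 0 < (M *ᵥ y) i) (w : ι → ℝ)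
    (hw : ∀ i, 0 ≤ (M *ᵥ w) i) : ∀ i, 0 ≤ w i := by
  by_contra hcon
  push Not at hcon
  obtain ⟨i₀, hi₀⟩ := hcon
  obtain ⟨j, _, hj⟩ := Finset.exists_min_image Finset.univ (fun i => w i / y i) ⟨i₀, Finset.mem_univ _⟩
  set μ : ℝ := -(w j / y j) with hμ
  have hμ0 : 0 < μ := by
    have h1 := hj i₀ (Finset.mem_univ _)
    have h2 : w i₀ / y i₀ < 0 := div_neg_of_neg_of_pos hi₀ (hy i₀)
    rw [hμ]
    linarith
  have hz : ∀ i, 0 ≤ w i + μ * y i := by
    intro i
    have h1 := hj i (Finset.mem_univ _)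
    have h2 : w j / y j * y i ≤ w i := by
      rw [← le_div_iff₀ (hy i)]
      exact h1
    rw [hμ]
    linarith
  have hzj : w j + μ * y j = 0 := by
    rw [hμ, neg_mul, div_mul_cancel₀ _ (hy j).ne']
    ring
  have h1 : (M *ᵥ (w + μ • y)) j ≤ 0 := by
    unfold mulVec dotProduct
    refine Finset.sum_nonpos fun i _ => ?_
    by_cases hij : i = j
    · subst hij
      simp only [Pi.add_apply, Pi.smul_apply, smul_eq_mul]
      rw [hzj, mul_zero]
    · exact mul_nonpos_of_nonpos_of_nonneg (hM j i (Ne.symm hij)) (hz i)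
  rw [mulVec_add, mulVec_smul] at h1
  simp only [Pi.add_apply, Pi.smul_apply, smul_eq_mul] at h1
  have h2 := mul_pos hμ0 (hMy j)
  linarith [hw j]

theorem det_ne_of_pos {ι : Type} [Fintype ι] [DecidableEq ι] (M : Matrix ι ι ℝ)
    (hM : ∀ i j, i ≠ j → M i j ≤ 0) (y : ι → ℝ) (hy : ∀ i, 0 < y i)
    (hMy : ∀ i, 0 < (M *ᵥ y) i) : M.det ≠ 0 := by
  intro h0
  obtain ⟨w, hw, hw0⟩ := Matrix.exists_mulVec_eq_zero_iff.mpr h0
  apply hw
  ext i
  have h1 := min_principle M hM y hy hMy w (fun i => by rw [hw0]; exact le_rfl) i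
  have h2 := min_principle M hM y hy hMy (-w) (fun i => by rw [mulVec_neg, hw0]; simp) i
  simp only [Pi.neg_apply] at h2
  have h3 : w i = 0 := le_antisymm (by linarith) h1
  exact h3

variable {n : ℕ} {A : Matrix (Fin n) (Fin n) ℤ} {d : Fin n → ℝ}

/-- the pencil over the reals -/
def Mt (A : Matrix (Fin n) (Fin n) ℤ) (t : ℝ) : Matrix (Fin n) (Fin n) ℝ :=
  t • (up A).map (Int.castRingHom ℝ) + (lo A).map (Int.castRingHom ℝ)

theorem cox_eval_real (A : Matrix (Fin n) (Fin n) ℤ) (t : ℝ) :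
    ((cox A).map (Int.castRingHom ℝ)).eval t = (Mt A t).det := by
  unfold cox Mt
  rw [pol_real, pnc_eval]
  congr 1
  ext i j
  by_cases hij : i = j
  · subst hij
    simp
  · simp [Matrix.diagonal_apply_ne _ hij]

theorem Mt_off (A : Matrix (Fin n) (Fin n) ℤ) (hA : ∀ i j, i ≠ j → A i j ≤ 0) (t : ℝ)
    (ht : 0 ≤ t) (i j : Fin n) (hij : i ≠ j) : Mt A t i j ≤ 0 := by
  have h1 : (A i j : ℝ) ≤ 0 := by exact_mod_cast hA i j hij
  rcases lt_or_gt_of_ne hij with h | h
  · simp only [Mt, up, lo, Matrix.add_apply, Matrix.smul_apply, Matrix.map_apply, Matrix.of_apply,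
      if_pos h, if_neg h.not_gt, if_neg hij]
    simp
    exact mul_nonpos_of_nonneg_of_nonpos ht h1
  · simp only [Mt, up, lo, Matrix.add_apply, Matrix.smul_apply, Matrix.map_apply, Matrix.of_apply,
      if_pos h, if_neg h.not_gt, if_neg hij]
    simp
    exact_mod_cast hA i j hij

/-- a positive vector for the triangular matrix -/
theorem up_pos (A : Matrix (Fin n) (Fin n) ℤ) : ∃ y : Fin n → ℝ, (∀ i, 0 < y i) ∧
    ∀ i, 0 < ((up A).map (Int.castRingHom ℝ) *ᵥ y) i := by
  set S : ℝ := ∑ i, ∑ j, |(A i j : ℝ)| with hS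
  have hS0 : 0 ≤ S := Finset.sum_nonneg fun i _ => Finset.sum_nonneg fun j _ => abs_nonneg _
  set r : ℝ := 1 / (S + 1) with hr
  have hr0 : 0 < r := by positivity
  have hr1 : r ≤ 1 := by
    rw [hr, div_le_one (by linarith)]
    linarith
  have hrS : r * S < 1 := by
    rw [hr, one_div, inv_mul_eq_div, div_lt_one (by linarith)]
    linarith
  refine ⟨fun j => r ^ (j : ℕ), fun i => pow_pos hr0 _, fun i => ?_⟩
  have h1 : ((up A).map (Int.castRingHom ℝ) *ᵥ fun j : Fin n => r ^ (j : ℕ)) i =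
      r ^ (i : ℕ) + ∑ j ∈ Finset.univ.filter (fun j => i < j), (A i j : ℝ) * r ^ (j : ℕ) := by
    unfold mulVec dotProduct
    rw [Finset.sum_filter, ← Finset.sum_erase_add _ _ (Finset.mem_univ i)]
    have h2 : (∑ j, if i < j then (A i j : ℝ) * r ^ (j : ℕ) else 0) =
        ∑ j ∈ Finset.univ.erase i, if i < j then (A i j : ℝ) * r ^ (j : ℕ) else 0 := by
      rw [← Finset.sum_erase_add _ _ (Finset.mem_univ i), if_neg (lt_irrefl i), add_zero]
    rw [h2, add_comm]
    congr 1
    · simp [up]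
    · refine Finset.sum_congr rfl fun j hj => ?_
      have hji : i ≠ j := (Finset.ne_of_mem_erase hj).symm
      by_cases hij : i < j
      · simp [up, hij]
      · simp [up, hij, hji]
  rw [h1]
  have h3 : |∑ j ∈ Finset.univ.filter (fun j => i < j), (A i j : ℝ) * r ^ (j : ℕ)| ≤
      r ^ (i : ℕ) * (r * S) := by
    refine (Finset.abs_sum_le_sum_abs _ _).trans ?_
    have h4 : ∀ j ∈ Finset.univ.filter (fun j => i < j), |(A i j : ℝ) * r ^ (j : ℕ)| ≤
        |(A i j : ℝ)| * (r ^ (i : ℕ) * r) := by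
      intro j hj
      have hij : i < j := (Finset.mem_filter.mp hj).2
      rw [abs_mul, abs_of_pos (pow_pos hr0 _), ← pow_succ]
      refine mul_le_mul_of_nonneg_left ?_ (abs_nonneg _)
      exact pow_le_pow_of_le_one hr0.le hr1 hij
    refine (Finset.sum_le_sum h4).trans ?_
    rw [← Finset.sum_mul]
    have h5 : ∑ j ∈ Finset.univ.filter (fun j => i < j), |(A i j : ℝ)| ≤ S := by
      refine (Finset.sum_le_sum_of_subset_of_nonneg (Finset.filter_subset _ _)
        fun _ _ _ => abs_nonneg _).trans ?_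
      exact Finset.single_le_sum (f := fun i => ∑ j, |(A i j : ℝ)|)
        (fun i _ => Finset.sum_nonneg fun j _ => abs_nonneg _) (Finset.mem_univ i)
    calc _ ≤ S * (r ^ (i : ℕ) * r) := mul_le_mul_of_nonneg_right h5 (by positivity)
      _ = _ := by ring
  have h6 : 0 < r ^ (i : ℕ) := pow_pos hr0 _
  have h7 := neg_abs_le (∑ j ∈ Finset.univ.filter (fun j => i < j), (A i j : ℝ) * r ^ (j : ℕ))
  nlinarith

/-- for large `t` the pencil is an M-matrix -/
theorem large_pos (A : Matrix (Fin n) (Fin n) ℤ) : ∃ y : Fin n → ℝ, (∀ i, 0 < y i) ∧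
    ∀ᶠ t : ℝ in atTop, ∀ i, 0 < (Mt A t *ᵥ y) i := by
  obtain ⟨y, hy, hU⟩ := up_pos A
  refine ⟨y, hy, ?_⟩
  rw [eventually_all]
  intro i
  have h1 : ∀ t : ℝ, (Mt A t *ᵥ y) i = t * ((up A).map (Int.castRingHom ℝ) *ᵥ y) i +
      ((lo A).map (Int.castRingHom ℝ) *ᵥ y) i := by
    intro t
    unfold Mt
    rw [add_mulVec, smul_mulVec]
    rfl
  simp only [h1]
  have h2 : Tendsto (fun t : ℝ => t * ((up A).map (Int.castRingHom ℝ) *ᵥ y) i +
      ((lo A).map (Int.castRingHom ℝ) *ᵥ y) i) atTop atTop :=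
    tendsto_atTop_add_const_right _ _ (tendsto_id.atTop_mul_const (hU i))
  exact h2.eventually_gt_atTop 0

/-- a positive vector as long as there is no root -/
theorem pos_vector {A : Matrix (Fin (n + 1)) (Fin (n + 1)) ℤ} (hA : ∀ i j, i ≠ j → A i j ≤ 0)
    (z : ℝ) (hz : 0 ≤ z) (hno : ∀ t, z ≤ t → (Mt A t).det ≠ 0) :
    ∃ y : Fin (n + 1) → ℝ, (∀ i, 0 < y i) ∧ ∀ i, 0 < (Mt A z *ᵥ y) i := by
  obtain ⟨y, hy, hlarge⟩ := large_pos A
  obtain ⟨T, hT, hzT⟩ := (hlarge.and (eventually_ge_atTop z)).exists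
  set x : ℝ → Fin (n + 1) → ℝ := fun t => (Mt A t)⁻¹ *ᵥ (fun _ => (1 : ℝ)) with hx
  have hMx : ∀ t, z ≤ t → Mt A t *ᵥ x t = fun _ => 1 := by
    intro t ht
    rw [hx]
    beta_reduce
    rw [mulVec_mulVec, Matrix.mul_nonsing_inv _ (isUnit_iff_ne_zero.mpr (hno t ht)), one_mulVec]
  have hstrict : ∀ t, z ≤ t → (∀ i, 0 ≤ x t i) → ∀ i, 0 < x t i := by
    intro t ht h i
    rcases (h i).lt_or_eq with h1 | h1
    · exact h1
    · exfalso
      have h2 : (Mt A t *ᵥ x t) i ≤ 0 := by
        unfold mulVec dotProduct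
        refine Finset.sum_nonpos fun j _ => ?_
        by_cases hij : j = i
        · subst hij
          rw [← h1, mul_zero]
        · exact mul_nonpos_of_nonpos_of_nonneg (Mt_off A hA t (hz.trans ht) i j (Ne.symm hij)) (h j)
      rw [hMx t ht] at h2
      linarith
  have hxT : ∀ i, 0 < x T i := by
    refine hstrict T hzT ?_
    refine min_principle (Mt A T) (Mt_off A hA T (hz.trans hzT)) y hy hT (x T) fun i => ?_
    rw [hMx T hzT]
    exact zero_le_one
  have hcont : ContinuousOn (fun t => Finset.univ.inf' Finset.univ_nonempty (fun i => x t i))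
      (Set.Icc z T) := by
    refine ContinuousOn.finset_inf'_apply _ fun i _ => ?_
    have h1 : ∀ t, x t i = ((Mt A t).det)⁻¹ * ((Mt A t).adjugate *ᵥ fun _ => (1 : ℝ)) i := by
      intro t
      rw [hx]
      beta_reduce
      rw [Matrix.inv_def, Ring.inverse_eq_inv', smul_mulVec]
      rfl
    simp only [h1]
    have hMc : Continuous fun t => Mt A t := by
      unfold Mt
      fun_prop
    refine ContinuousOn.mul ?_ ?_
    · exact ContinuousOn.inv₀ hMc.matrix_det.continuousOn fun t ht => hno t ht.1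
    · refine Continuous.continuousOn ?_
      unfold mulVec dotProduct
      refine continuous_finsetSum _ fun j _ => ?_
      refine Continuous.mul ?_ continuous_const
      exact (hMc.matrix_adjugate).matrix_elem i j
  refine ⟨x z, ?_, fun i => by rw [hMx z le_rfl]; exact one_pos⟩
  by_contra hcon
  push Not at hcon
  obtain ⟨i, hi⟩ := hcon
  have h1 : Finset.univ.inf' Finset.univ_nonempty (fun i => x z i) ≤ 0 :=
    (Finset.inf'_le _ (Finset.mem_univ i)).trans hi
  have h2 : 0 ≤ Finset.univ.inf' Finset.univ_nonempty (fun i => x T i) :=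
    Finset.le_inf' _ _ fun i _ => (hxT i).le
  obtain ⟨t, ht, ht0⟩ := intermediate_value_Icc hzT hcont ⟨h1, h2⟩
  have ht0' : Finset.univ.inf' Finset.univ_nonempty (fun i => x t i) = 0 := ht0
  have h3 : ∀ i, 0 ≤ x t i := fun i => by
    rw [← ht0']
    exact Finset.inf'_le _ (Finset.mem_univ i)
  obtain ⟨j, _, hj⟩ := Finset.exists_mem_eq_inf' (Finset.univ_nonempty (α := Fin (n + 1)))
    (fun i => x t i)
  have h4 := hstrict t ht.1 h3 j
  rw [← hj, ht0'] at h4
  exact lt_irrefl _ h4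

/-- no root to the left of `-1` -/
theorem Dat.no_neg (h : Dat A d) (t : ℝ) (ht : t < -1) :
    ((cox A).map (Int.castRingHom ℝ)).eval t ≠ 0 := by
  have h1 := CX.no_neg (Wm A d) h.lorW d h.pos (fun s hs => by
    rw [W_add A d fun _ => s, Matrix.det_mul, Matrix.det_diagonal, det_up_real]
    exact mul_pos h.prod_pos (Finset.prod_pos fun i _ => by linarith)) t ht
  have h2 := h.pnc_eq 0
  have h3 : (diagonal fun i => (0 : Fin n → ℝ) i * d i) = 0 := by
    ext i j
    by_cases hij : i = j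
    · subst hij; simp
    · simp [Matrix.diagonal_apply_ne _ hij]
  rw [h3, add_zero, sub_zero] at h2
  rw [h2, eval_mul, eval_C] at h1
  have h4 : (cox A).map (Int.castRingHom ℝ) = pnc ((up A).map (Int.castRingHom ℝ) + diagonal 0)
      ((lo A).map (Int.castRingHom ℝ) - diagonal 0) := by
    unfold cox
    rw [pol_real]
    congr 2
    all_goals
      ext i j
      by_cases hij : i = j
      · subst hij; simp
      · simp [Matrix.diagonal_apply_ne _ hij]
  rw [h4]
  exact right_ne_zero_of_mul h1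

/-- **Monotonicity.** -/
theorem Dat.mono {A : Matrix (Fin (n + 1)) (Fin (n + 1)) ℤ} {d : Fin (n + 1) → ℝ} (h : Dat A d)
    (hA : ∀ i j, i ≠ j → A i j ≤ 0) (i : Fin (n + 1)) : m1 (cox (CX.del A i)) ≤ m1 (cox A) := by
  have hF := Dat.one_le A
  have hd := h.del i
  rcases hd.cases 0 fun _ => le_rfl with ⟨_, h1⟩ | ⟨z, hz, hz0, _, h1⟩
  · have h2 : m1 (cox (CX.del A i)) = 1 := by
      change m1 (cox (CX.del A i)) = _ at h1
      rw [h1]
      simp
    rw [h2]
    exact hF
  · have h2 : m1 (cox (CX.del A i)) = |z| := by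
      change m1 (cox (CX.del A i)) = _ at h1
      rw [h1]
      simp
    rw [h2]
    have hz1 : 0 < z := by
      by_contra hneg
      push Not at hneg
      rw [abs_of_nonpos hneg] at hz
      exact hd.no_neg z (by linarith) hz0
    rw [abs_of_pos hz1] at hz ⊢
    by_contra hcon
    push Not at hcon
    obtain ⟨y, hy, hMy⟩ := pos_vector hA z hz1.le fun t ht h0 => by
      rw [← cox_eval_real] at h0
      have h3 : |t| = t := abs_of_pos (by linarith)
      have := h.root_abs t (by rw [h3]; linarith) h0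
      linarith
    have hsub : Mt (CX.del A i) z = (Mt A z).submatrix i.succAbove i.succAbove := by
      unfold Mt
      rw [up_del, lo_del]
      ext a b
      simp
    have hdA : ∀ a b, a ≠ b → CX.del A i a b ≤ 0 := fun a b hab =>
      hA _ _ fun h => hab (Fin.succAbove_right_injective h)
    have h5 : (Mt (CX.del A i) z).det = 0 := by
      rw [← cox_eval_real]
      exact hz0
    refine det_ne_of_pos (Mt (CX.del A i) z) (Mt_off _ hdA z hz1.le)
      (fun a => y (i.succAbove a)) (fun a => hy _) (fun a => ?_) h5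
    have h6 := hMy (i.succAbove a)
    have h7 : (Mt A z *ᵥ y) (i.succAbove a) = Mt A z (i.succAbove a) i * y i +
        (Mt (CX.del A i) z *ᵥ fun a => y (i.succAbove a)) a := by
      rw [hsub]
      unfold mulVec dotProduct
      rw [Fin.sum_univ_succAbove _ i]
      rfl
    rw [h7] at h6
    have h8 : Mt A z (i.succAbove a) i * y i ≤ 0 :=
      mul_nonpos_of_nonpos_of_nonneg (Mt_off A hA z hz1.le _ _ (Fin.succAbove_ne i a)) (hy i).le
    linarith

end

end Pool.Agent.W5h66.CX
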